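import Pool.Agent.Helper6.QG.Defs

/-!
Twin classes and supports: basic facts.
-/

namespace Pool.Agent.Helper6.QG

variable {M : Type*} [DecidableEq M] {k : ℕ}

/-- Symmetric difference. -/
def xr (A B : (Fin k → M) → Prop) : (Fin k → M) → Prop := fun x => ¬ (A x ↔ B x)

/-- The transposition `(u v)` is an automorphism of `R`. -/
def Twin (R : (Fin k → M) → Prop) (u v : M) : Prop := ∀ x, R (Equiv.swap u v ∘ x) ↔ R x

lemma twin_refl (R : (Fin k → M) → Prop) (u : M) : Twin R u u := by
  intro x; simp

lemma twin_symm {R : (Fin k → M) → Prop} {u v : M} (h : Twin R u v) : Twin R v u := by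
  intro x; rw [Equiv.swap_comm]; exact h x

lemma twin_trans {R : (Fin k → M) → Prop} {u v w : M} (h : Twin R u v) (h' : Twin R v w) :
    Twin R u w := by
  by_cases huv : u = v
  · subst huv; exact h'
  by_cases hvw : v = w
  · subst hvw; exact h
  by_cases huw : u = w
  · subst huw; exact twin_refl R u
  intro x
  have e : (Equiv.swap u w : Equiv.Perm M) =
      Equiv.swap u v * Equiv.swap v w * Equiv.swap u v := by
    ext y
    by_cases h1 : y = u
    · subst h1
      simp [Equiv.swap_apply_of_ne_of_ne, Ne.symm huw, Ne.symm hvw]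
    · by_cases h2 : y = v
      · subst h2
        simp [Equiv.swap_apply_of_ne_of_ne, huv, hvw, Ne.symm huv, huw]
      · by_cases h3 : y = w
        · subst h3
          simp [Equiv.swap_apply_of_ne_of_ne, Ne.symm huw, Ne.symm hvw]
        · simp [Equiv.swap_apply_of_ne_of_ne, h1, h2, h3]
  rw [e]
  have e2 : (⇑(Equiv.swap u v * Equiv.swap v w * Equiv.swap u v) ∘ x) =
      Equiv.swap u v ∘ (Equiv.swap v w ∘ (Equiv.swap u v ∘ x)) := by
    funext i; simp
  rw [e2, h, h', h]

lemma twin_of_sup {R : (Fin k → M) → Prop} {C : Finset M} (h : Sup R C) {u v : M}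
    (hu : u ∉ C) (hv : v ∉ C) : Twin R u v := by
  intro x
  apply h
  intro c hc
  apply Equiv.swap_apply_of_ne_of_ne
  · rintro rfl; exact hu hc
  · rintro rfl; exact hv hc

omit [DecidableEq M] in
lemma sup_mono {R : (Fin k → M) → Prop} {C D : Finset M} (h : Sup R C) (hCD : C ⊆ D) :
    Sup R D :=
  fun π hπ => h π fun c hc => hπ c (hCD hc)

lemma sup_xr {A B : (Fin k → M) → Prop} {C D : Finset M} (hA : Sup A C) (hB : Sup B D) :
    Sup (xr A B) (C ∪ D) := by
  intro π hπ x
  have h1 := hA π (fun c hc => hπ c (Finset.mem_union_left _ hc)) x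
  have h2 := hB π (fun c hc => hπ c (Finset.mem_union_right _ hc)) x
  simp only [xr, h1, h2]

/-- The relation `R` transported by `π` (as in `core`). -/
def pull (π : Equiv.Perm M) (R : (Fin k → M) → Prop) : (Fin k → M) → Prop := fun t => R (π ∘ t)

omit [DecidableEq M] in
lemma sup_pull {A : (Fin k → M) → Prop} {C : Finset M} (hA : Sup A C) (σ : Equiv.Perm M) :
    Sup (pull σ A) (C.map σ.symm.toEmbedding) := by
  intro π hπ x
  have h1 := hA (σ * π * σ.symm) (fun c hc => by
    have := hπ (σ.symm c) (Finset.mem_map.2 ⟨c, hc, rfl⟩)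
    simp only [Equiv.Perm.mul_apply]
    rw [this]; simp) (σ ∘ x)
  simp only [pull]
  rw [← h1]
  have e : (σ ∘ ⇑π ∘ x) = ⇑(σ * π * σ.symm) ∘ ⇑σ ∘ x := by
    funext i; simp
  rw [e]

/-- `R` has a support of at most `s` elements. -/
def SupLe (s : ℕ) (R : (Fin k → M) → Prop) : Prop := ∃ C : Finset M, C.card ≤ s ∧ Sup R C

lemma supLe_xr {A B : (Fin k → M) → Prop} {s t : ℕ} (hA : SupLe s A) (hB : SupLe t B) :
    SupLe (s + t) (xr A B) := by
  obtain ⟨C, hC, hA⟩ := hA
  obtain ⟨D, hD, hB⟩ := hB
  exact ⟨C ∪ D, (Finset.card_union_le _ _).trans (by omega), sup_xr hA hB⟩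

omit [DecidableEq M] in
lemma supLe_pull {A : (Fin k → M) → Prop} {s : ℕ} (hA : SupLe s A) (σ : Equiv.Perm M) :
    SupLe s (pull σ A) := by
  obtain ⟨C, hC, hA⟩ := hA
  exact ⟨_, by simpa using hC, sup_pull hA σ⟩

variable [Fintype M]

open Classical in
/-- The twin class of `p`. -/
noncomputable def cls (R : (Fin k → M) → Prop) (p : M) : Finset M :=
  Finset.univ.filter fun x => Twin R x p

lemma mem_cls {R : (Fin k → M) → Prop} {p x : M} : x ∈ cls R p ↔ Twin R x p := by
  simp [cls]

/-- If all points outside `C` are twins, `C` is a support. -/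
lemma sup_of_twin {R : (Fin k → M) → Prop} {C : Finset M}
    (h : ∀ u v, u ∉ C → v ∉ C → Twin R u v) : Sup R C := by
  intro π
  induction hm : π.support.card using Nat.strong_induction_on generalizing π with
  | _ m ih =>
    intro hπ x
    by_cases h1 : π = 1
    · subst h1; simp
    obtain ⟨u, hu⟩ : ∃ u, π u ≠ u := by
      by_contra hc
      push Not at hc
      exact h1 (Equiv.ext hc)
    have huC : u ∉ C := fun hc => hu (hπ u hc)
    have hpC : π u ∉ C := by
      intro hc
      have := hπ _ hc
      exact hu (π.injective this)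
    have hlt := Equiv.Perm.card_support_swap_mul (f := π) (x := u) hu
    rw [hm] at hlt
    have hfix : ∀ c ∈ C, (Equiv.swap u (π u) * π) c = c := by
      intro c hc
      rw [Equiv.Perm.mul_apply, hπ c hc]
      apply Equiv.swap_apply_of_ne_of_ne
      · rintro rfl; exact huC hc
      · rintro rfl; exact hpC hc
    have := ih _ hlt (Equiv.swap u (π u) * π) rfl hfix x
    rw [← this]
    have e : (⇑π ∘ x) = Equiv.swap u (π u) ∘ (⇑(Equiv.swap u (π u) * π) ∘ x) := by
      funext i; simp
    rw [e, h _ _ huC hpC]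

/-- No twin class of `D` has a size strictly between `s` and `n - s`. -/
def NoMid (s : ℕ) (D : (Fin k → M) → Prop) : Prop :=
  ∀ p, (cls D p).card ≤ s ∨ Fintype.card M ≤ (cls D p).card + s

lemma supLe_of_noMid {D : (Fin k → M) → Prop} {s s' : ℕ} (h : NoMid s D) (hs : SupLe s' D)
    (hn : s + s' < Fintype.card M) : SupLe s D := by
  classical
  obtain ⟨C, hC, hD⟩ := hs
  obtain ⟨p, hp⟩ : ∃ p, p ∉ C := by
    by_contra hc
    push Not at hc
    have : (Finset.univ : Finset M) ⊆ C := fun x _ => hc x
    have := Finset.card_le_card this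
    simp at this
    omega
  have hsub : Cᶜ ⊆ cls D p := by
    intro x hx
    rw [Finset.mem_compl] at hx
    exact mem_cls.2 (twin_of_sup hD hx hp)
  have hcard := Finset.card_le_card hsub
  rw [Finset.card_compl] at hcard
  have h2 : Fintype.card M ≤ (cls D p).card + s := by
    rcases h p with h | h
    · omega
    · exact h
  refine ⟨(cls D p)ᶜ, ?_, ?_⟩
  · rw [Finset.card_compl]; omega
  · apply sup_of_twin
    intro u v hu hv
    rw [Finset.mem_compl, not_not, mem_cls] at hu hv
    exact twin_trans hu (twin_symm hv)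

end Pool.Agent.Helper6.QG
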