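import Pool.Agent.Helper6.QG.Lin

/-!
Linear bound, end of the proof.
-/

namespace Pool.Agent.Helper6.QG

variable {M : Type*} [DecidableEq M] [Fintype M] {k : ℕ}

lemma no_many {Q : (Fin k → M) → Prop} {s : ℕ} (hall : ∀ π, SupLe s (xr Q (pull π Q)))
    {V : Finset M} {l : ℕ} (hn : s + V.card + (s + 1) * (2 * k) + k < Fintype.card M)
    (X Y : ℕ → Fin k → M) : ¬ Many Q V l (s + 1) X Y := by
  classical
  intro hM
  obtain ⟨π, p1, p2⟩ := exists_swaps X Y (s + 1) hM
  obtain ⟨W, hWc, hW⟩ := hall π
  set Z : ℕ → Finset M := fun j => fre V (X j) ∪ fre V (Y j) with hZ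
  have hZc : ∀ j, (Z j).card ≤ 2 * k := by
    intro j
    have h1 := Finset.card_union_le (fre V (X j)) (fre V (Y j))
    have h2 := fre_card_le V (X j)
    have h3 := fre_card_le V (Y j)
    show (fre V (X j) ∪ fre V (Y j)).card ≤ 2 * k
    omega
  obtain ⟨j, hj, hjW⟩ : ∃ j < s + 1, Disjoint (Z j) W := by
    by_contra hcon
    push Not at hcon
    have hex : ∀ j < s + 1, ∃ z, z ∈ Z j ∧ z ∈ W := by
      intro j hj
      have := hcon j hj
      rw [Finset.not_disjoint_iff] at this
      exact this
    have hex' : ∀ j, ∃ z, j < s + 1 → z ∈ Z j ∧ z ∈ W := by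
      intro j
      by_cases hj : j < s + 1
      · obtain ⟨z, hz⟩ := hex j hj
        exact ⟨z, fun _ => hz⟩
      · obtain ⟨z, _⟩ := hex 0 (by omega)
        exact ⟨z, fun h => absurd h hj⟩
    choose f hf using hex'
    have h1 : (Finset.range (s + 1)).card ≤ W.card := by
      refine Finset.card_le_card_of_injOn f ?_ ?_
      · intro j hj
        exact (hf j (Finset.mem_range.1 hj)).2
      · intro i hi j hj hij
        by_contra hne
        have hi' : i < s + 1 := Finset.mem_range.1 hi
        have hj' : j < s + 1 := Finset.mem_range.1 hj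
        have hd := hM.2 i hi' j hj' hne
        exact Finset.disjoint_left.1 hd (hf i hi').1 (hij ▸ (hf j hj').1)
    rw [Finset.card_range] at h1
    omega
  have hπX : (⇑π ∘ X j) = Y j := by funext i; exact p1 j hj i
  have hDX : xr Q (pull π Q) (X j) := by
    simp only [xr, pull, hπX]
    exact (hM.1 j hj).ne
  set F : Finset M := (W ∪ V ∪ (Finset.range (s + 1)).biUnion Z)ᶜ with hF
  have hFc : k < F.card := by
    rw [hF, Finset.card_compl]
    have h1 := Finset.card_union_le (W ∪ V) ((Finset.range (s + 1)).biUnion Z)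
    have h2 := Finset.card_union_le W V
    have h3 : ((Finset.range (s + 1)).biUnion Z).card ≤ (s + 1) * (2 * k) := by
      refine Finset.card_biUnion_le.trans ?_
      refine (Finset.sum_le_card_nsmul _ _ (2 * k) (fun j _ => hZc j)).trans ?_
      simp
    omega
  have hdis : Disjoint (W ∪ V) F := by
    rw [Finset.disjoint_left]
    intro z hz hzF
    rw [hF, Finset.mem_compl] at hzF
    exact hzF (Finset.mem_union_left _ hz)
  obtain ⟨y, hy, hyi⟩ := exists_fresh2 (sup_mono hW (Finset.subset_union_left (s₂ := V))) hFc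
    hdis (X j) hDX
  have hπV : ∀ z ∈ V, π z = z := by
    intro z hz
    apply p2
    intro i _
    exact ⟨fun h => (mem_fre.1 h).2 hz, fun h => (mem_fre.1 h).2 hz⟩
  have hπF : ∀ z ∈ F, π z = z := by
    intro z hz
    apply p2
    intro i hi
    rw [hF, Finset.mem_compl] at hz
    constructor
    · intro h
      exact hz (Finset.mem_union_right _ (Finset.mem_biUnion.2 ⟨i, Finset.mem_range.2 hi,
        Finset.mem_union_left _ h⟩))
    · intro h
      exact hz (Finset.mem_union_right _ (Finset.mem_biUnion.2 ⟨i, Finset.mem_range.2 hi,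
        Finset.mem_union_right _ h⟩))
  have hπy : (⇑π ∘ y) = y := by
    funext i
    simp only [Function.comp]
    rcases hyi i with ⟨h1, h2⟩ | h1
    · rw [h2]
      rcases Finset.mem_union.1 h1 with h3 | h3
      · by_cases h4 : X j i ∈ V
        · exact hπV _ h4
        · exfalso
          exact Finset.disjoint_left.1 hjW
            (Finset.mem_union_left _ (mem_fre.2 ⟨⟨i, rfl⟩, h4⟩)) h3
      · exact hπV _ h3
    · exact hπF _ h1
  simp only [xr, pull, hπy] at hy
  simp at hy

/-- tuples with the same pattern over `V` and more than `l` free entries agree -/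
def Agr (Q : (Fin k → M) → Prop) (V : Finset M) (l : ℕ) : Prop :=
  ∀ x y, Pat V x y → l < (fre V x).card → (Q x ↔ Q y)

lemma step {Q : (Fin k → M) → Prop} {s : ℕ} (hall : ∀ π, SupLe s (xr Q (pull π Q)))
    {V : Finset M} {l : ℕ} (hn : s + V.card + (s + 1) * (2 * k) + k < Fintype.card M)
    (hn2 : V.card + s * (2 * k) + 3 * k ≤ Fintype.card M) (hU : Agr Q V (l + 1)) :
    ∃ V' : Finset M, V'.card ≤ V.card + s * (2 * k) ∧ Agr Q V' l := by
  classical
  obtain ⟨r, hr, ⟨X, Y, hXY⟩, hmax⟩ : ∃ r ≤ s, (∃ X Y, Many Q V (l + 1) r X Y) ∧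
      ¬ ∃ X Y, Many Q V (l + 1) (r + 1) X Y := by
    by_contra hcon
    push Not at hcon
    have : ∀ r ≤ s + 1, ∃ X Y, Many Q V (l + 1) r X Y := by
      intro r
      induction r with
      | zero =>
        intro _
        rcases isEmpty_or_nonempty M with hM | hM
        · have : Fintype.card M = 0 := Fintype.card_eq_zero
          omega
        · exact ⟨fun _ _ => hM.some, fun _ _ => hM.some, by simp, by simp⟩
      | succ r ih =>
        intro hr
        exact hcon r (by omega) (ih (by omega))
    obtain ⟨X, Y, h⟩ := this (s + 1) le_rfl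
    exact no_many hall hn X Y h
  set Z : ℕ → Finset M := fun j => fre V (X j) ∪ fre V (Y j) with hZ
  have hZc : ∀ j, (Z j).card ≤ 2 * k := by
    intro j
    have h1 := Finset.card_union_le (fre V (X j)) (fre V (Y j))
    have h2 := fre_card_le V (X j)
    have h3 := fre_card_le V (Y j)
    show (fre V (X j) ∪ fre V (Y j)).card ≤ 2 * k
    omega
  set V' : Finset M := V ∪ (Finset.range r).biUnion Z with hV'
  have hVV' : V ⊆ V' := Finset.subset_union_left
  have hV'c : V'.card ≤ V.card + s * (2 * k) := by
    have h1 := Finset.card_union_le V ((Finset.range r).biUnion Z)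
    have h2 : ((Finset.range r).biUnion Z).card ≤ r * (2 * k) := by
      refine Finset.card_biUnion_le.trans ?_
      refine (Finset.sum_le_card_nsmul _ _ (2 * k) (fun j _ => hZc j)).trans ?_
      simp
    have h3 : r * (2 * k) ≤ s * (2 * k) := Nat.mul_le_mul_right _ hr
    rw [← hV'] at h1
    omega
  have agree : ∀ x y, Pat V x y → (fre V x).card = l + 1 → Disjoint (fre V x) V' →
      Disjoint (fre V y) V' → Disjoint (fre V x) (fre V y) → (Q x ↔ Q y) := by
    intro x y hp hc hx hy hd
    by_contra hne
    apply hmax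
    refine ⟨fun j => if j = r then x else X j, fun j => if j = r then y else Y j, ?_, ?_⟩
    · intro j hj
      by_cases hjr : j = r
      · simp only [hjr, if_true]
        exact ⟨hp, hc, hd, hne⟩
      · simp only [hjr, if_false]
        exact hXY.1 j (by omega)
    · have key : ∀ j < r, Disjoint (fre V x ∪ fre V y) (fre V (X j) ∪ fre V (Y j)) := by
        intro j hj
        have hsub : Z j ⊆ V' := by
          intro z hz
          rw [hV']
          exact Finset.mem_union_right _ (Finset.mem_biUnion.2 ⟨j, Finset.mem_range.2 hj, hz⟩)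
        rw [Finset.disjoint_union_left]
        exact ⟨Finset.disjoint_of_subset_right hsub hx, Finset.disjoint_of_subset_right hsub hy⟩
      intro i hi j hj hij
      by_cases hir : i = r
      · have hjr : j ≠ r := fun h => hij (hir.trans h.symm)
        simp only [hir, hjr, if_true, if_false]
        exact key j (by omega)
      · by_cases hjr : j = r
        · simp only [hir, hjr, if_true, if_false]
          exact (key i (by omega)).symm
        · simp only [hir, hjr, if_false]
          exact hXY.2 i (by omega) j (by omega) hij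
  refine ⟨V', hV'c, ?_⟩
  intro x y hp hlt
  have hpV : Pat V x y := hp.mono hVV'
  have hsub : ∀ t : Fin k → M, fre V' t ⊆ fre V t := by
    intro t z hz
    rw [mem_fre] at hz ⊢
    exact ⟨hz.1, fun h => hz.2 (hVV' h)⟩
  have hle := Finset.card_le_card (hsub x)
  by_cases hbig : l + 1 < (fre V x).card
  · exact hU x y hpV hbig
  have hx1 : (fre V x).card = l + 1 := by omega
  have hxe : fre V' x = fre V x := Finset.eq_of_subset_of_card_le (hsub x) (by omega)
  have hye : fre V' y = fre V y := by
    apply Finset.eq_of_subset_of_card_le (hsub y)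
    rw [← hpV.card, ← hp.card, hxe]
  have hdV' : ∀ t : Fin k → M, fre V' t = fre V t → Disjoint (fre V t) V' := by
    intro t ht
    rw [← ht, Finset.disjoint_left]
    intro z hz
    exact (mem_fre.1 hz).2
  -- a third tuple
  set F : Finset M := (V' ∪ (Finset.univ.image x ∪ Finset.univ.image y))ᶜ with hF
  have hFc : k ≤ F.card := by
    rw [hF, Finset.card_compl]
    have h1 := Finset.card_union_le V' (Finset.univ.image x ∪ Finset.univ.image y)
    have h2 := Finset.card_union_le (Finset.univ.image x) (Finset.univ.image y)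
    have h3 : (Finset.univ.image x).card ≤ k := by
      simpa using Finset.card_image_le (s := (Finset.univ : Finset (Fin k))) (f := x)
    have h4 : (Finset.univ.image y).card ≤ k := by
      simpa using Finset.card_image_le (s := (Finset.univ : Finset (Fin k))) (f := y)
    omega
  have hFV' : Disjoint F V' := by
    rw [Finset.disjoint_left]
    intro z hz hzV
    rw [hF, Finset.mem_compl] at hz
    exact hz (Finset.mem_union_left _ hzV)
  obtain ⟨w, hw, hwF⟩ := exists_copy hFc (Finset.disjoint_of_subset_right hVV' hFV') x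
  have hwV' : Disjoint (fre V w) V' := Finset.disjoint_of_subset_left hwF hFV'
  have hxw : Disjoint (fre V x) (fre V w) := by
    rw [Finset.disjoint_left]
    intro z hz hzw
    have h1 := hwF hzw
    rw [hF, Finset.mem_compl] at h1
    obtain ⟨⟨i, hi⟩, _⟩ := mem_fre.1 hz
    exact h1 (Finset.mem_union_right _ (Finset.mem_union_left _
      (hi ▸ Finset.mem_image_of_mem _ (Finset.mem_univ _))))
  have hyw : Disjoint (fre V y) (fre V w) := by
    rw [Finset.disjoint_left]
    intro z hz hzw
    have h1 := hwF hzw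
    rw [hF, Finset.mem_compl] at h1
    obtain ⟨⟨i, hi⟩, _⟩ := mem_fre.1 hz
    exact h1 (Finset.mem_union_right _ (Finset.mem_union_right _
      (hi ▸ Finset.mem_image_of_mem _ (Finset.mem_univ _))))
  have h1 := agree x w hw hx1 (hdV' x hxe) hwV' hxw
  have h2 := agree y w (hpV.symm.trans hw) (by rw [← hpV.card]; exact hx1) (hdV' y hye) hwV' hyw
  exact h1.trans h2.symm

lemma iter {Q : (Fin k → M) → Prop} {s : ℕ} (hall : ∀ π, SupLe s (xr Q (pull π Q)))
    (hn : (2 * k ^ 2 + 4 * k + 2) * (s + 1) < Fintype.card M) (j : ℕ) (hj : j ≤ k) :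
    ∃ V : Finset M, V.card ≤ j * (s * (2 * k)) ∧ Agr Q V (k - j) := by
  induction j with
  | zero =>
    refine ⟨∅, by simp, ?_⟩
    intro x y _ h
    have := fre_card_le ∅ x
    omega
  | succ j ih =>
    obtain ⟨V, hV, hU⟩ := ih (by omega)
    have e : k - j = (k - (j + 1)) + 1 := by omega
    rw [e] at hU
    have h1 : j * (s * (2 * k)) ≤ k * (s * (2 * k)) := Nat.mul_le_mul_right _ (by omega)
    have e1 : (2 * k ^ 2 + 4 * k + 2) * (s + 1) = k * (s * (2 * k)) + 2 * k ^ 2 + s * (2 * k) +
        s * (2 * k) + 4 * k + 2 * s + 2 := by ring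
    have e2 : (s + 1) * (2 * k) = s * (2 * k) + 2 * k := by ring
    obtain ⟨V', h2, h3⟩ := step hall (V := V) (l := k - (j + 1)) (by omega) (by omega) hU
    refine ⟨V', ?_, h3⟩
    have e3 : (j + 1) * (s * (2 * k)) = j * (s * (2 * k)) + s * (2 * k) := by ring
    omega

lemma supLe_lin {Q : (Fin k → M) → Prop} {s : ℕ} (hall : ∀ π, SupLe s (xr Q (pull π Q)))
    (hn : (2 * k ^ 2 + 4 * k + 2) * (s + 1) < Fintype.card M) :
    SupLe (k * (s * (2 * k))) Q := by
  obtain ⟨V, hV, hU⟩ := iter hall hn k le_rfl
  rw [Nat.sub_self] at hU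
  refine ⟨V, hV, ?_⟩
  intro σ hσ t
  by_cases h0 : (fre V t).card = 0
  · have : (⇑σ ∘ t) = t := by
      funext i
      apply hσ
      by_contra hi
      rw [Finset.card_eq_zero] at h0
      have : t i ∈ fre V t := mem_fre.2 ⟨⟨i, rfl⟩, hi⟩
      rw [h0] at this
      simp at this
    rw [this]
  · refine (hU t (σ ∘ t) ⟨?_, ?_⟩ (by omega)).symm
    · intro i v hv
      constructor
      · intro h
        simp [h, hσ v hv]
      · intro h
        apply σ.injective
        rw [hσ v hv]
        exact h
    · intro i j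
      constructor
      · intro h
        simp [h]
      · intro h
        exact σ.injective h

/-- No shape of `R` has a middle size. -/
def NoShp (s : ℕ) (R : (Fin k → M) → Prop) : Prop :=
  ∀ (J : Finset (Fin k)) (π : Equiv.Perm M) (a1 a2 : Fin k → M),
    NoMid s (xr (sec J a1 R) (sec J a2 (pull π R)))

lemma supLe_sec_lin (k j : ℕ) : ∃ c : ℕ, ∀ s : ℕ, 1 ≤ s → ∀ (M : Type) [Fintype M]
    [DecidableEq M] (R : (Fin k → M) → Prop), NoShp s R → ∀ (J : Finset (Fin k)),
      J.card + j = k → ∀ a : Fin k → M, SupLe (c * s) (sec J a R) := by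
  induction j with
  | zero =>
    refine ⟨0, ?_⟩
    intro s _ M _ _ R _ J hJ a
    have hJu : J = Finset.univ := by
      rw [← Finset.card_eq_iff_eq_univ, Fintype.card_fin]; omega
    refine ⟨∅, by simp, ?_⟩
    intro σ _ t
    subst hJu
    have e : ∀ t : Fin k → M, ov Finset.univ a t = a := by
      intro t; funext i; simp [ov]
    simp only [sec, e]
  | succ j ih =>
    obtain ⟨c, hc⟩ := ih
    refine ⟨(4 * k ^ 2 + 8 * k + 8) + 2 * (k * c), ?_⟩
    intro s hs M _ _ R hR J hJ a
    have hsec : ∀ i, i ∉ J → ∀ b, SupLe (c * s) (sec (insert i J) b R) := by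
      intro i hi b
      apply hc s hs M R hR
      rw [Finset.card_insert_of_notMem hi]; omega
    have hsw := supLe_swap J a R (c * s) hsec
    have hmid : ∀ π, NoMid s (xr (sec J a R) (pull π (sec J a R))) := by
      intro π
      rw [pull_sec]
      exact hR J π a _
    have e : ((4 * k ^ 2 + 8 * k + 8) + 2 * (k * c)) * s =
        4 * (k ^ 2 * s) + 8 * (k * s) + 8 * s + 2 * (k * (c * s)) := by ring
    have hk : k ≤ k * s := Nat.le_mul_of_pos_right k (by omega)
    have hk2 : k ^ 2 ≤ k ^ 2 * s := Nat.le_mul_of_pos_right _ (by omega)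
    have e1 : (2 * k ^ 2 + 4 * k + 2) * (s + 1) = 2 * (k ^ 2 * s) + 2 * k ^ 2 + 4 * (k * s) +
        4 * k + 2 * s + 2 := by ring
    have e2 : k * (s * (2 * k)) = 2 * (k ^ 2 * s) := by ring
    by_cases hn : s + (2 * (k * (c * s)) + 2) < Fintype.card M ∧ 3 * s < Fintype.card M ∧
        (2 * k ^ 2 + 4 * k + 2) * (s + 1) < Fintype.card M
    · have hall := supLe_all hmid hsw hn.1 hn.2.1
      obtain ⟨C, hC, hCs⟩ := supLe_lin hall hn.2.2
      refine ⟨C, hC.trans ?_, hCs⟩
      rw [e, e2]
      omega
    · refine ⟨Finset.univ, ?_, ?_⟩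
      · rw [Finset.card_univ, e]
        by_contra hcon
        apply hn
        refine ⟨?_, ?_, ?_⟩
        · omega
        · omega
        · rw [e1]; omega
      · intro σ hσ t
        have : (⇑σ ∘ t) = t := by
          funext i; exact hσ _ (Finset.mem_univ _)
        rw [this]

/-- The core with a linear bound. -/
theorem core_lin (k : ℕ) : ∃ c : ℕ, ∀ s : ℕ, 1 ≤ s → ∀ (M : Type) [Fintype M]
    [DecidableEq M] (R : (Fin k → M) → Prop),
    (∃ C : Finset M, C.card ≤ c * s ∧ Sup R C) ∨
    ∃ (J : Finset (Fin k)) (π : Equiv.Perm M) (a1 a2 : Fin k → M) (p : M) (X : Finset M),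
      (∀ x, x ∈ X ↔ XJ J R (fun t => R (π ∘ t)) a1 a2 p x) ∧ s < X.card ∧
      X.card + s < Fintype.card M := by
  obtain ⟨c, hc⟩ := supLe_sec_lin k k
  refine ⟨c, ?_⟩
  intro s hs M _ _ R
  by_cases hR : NoShp s R
  · left
    rcases isEmpty_or_nonempty M with hM | hM
    · refine ⟨∅, by simp, ?_⟩
      intro σ _ t
      have : (⇑σ ∘ t) = t := by
        funext i; exact (hM.false (t i)).elim
      rw [this]
    · obtain ⟨C, h1, h2⟩ := hc s hs M R hR ∅ (by simp) (fun _ => hM.some)
      refine ⟨C, h1, ?_⟩
      intro σ hσ t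
      have := h2 σ hσ t
      have e : ∀ a t : Fin k → M, ov ∅ a t = t := by
        intro a t; funext i; simp [ov]
      simpa only [sec, e] using this
  · right
    unfold NoShp NoMid at hR
    push Not at hR
    obtain ⟨J, π, a1, a2, p, h1, h2⟩ := hR
    refine ⟨J, π, a1, a2, p, cls (xr (sec J a1 R) (sec J a2 (pull π R))) p, ?_, h1, h2⟩
    intro x
    rw [mem_cls, ← XJ_iff]
    rfl

end Pool.Agent.Helper6.QG
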