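import Pool.Agent.Helper6.QG.Last

/-!
The core: bounded supports or a shape of middle size.
-/

namespace Pool.Agent.Helper6.QG

variable {M : Type*} [DecidableEq M] [Fintype M] {k : ℕ}

omit [DecidableEq M] [Fintype M] in
lemma ov_univ (a t : Fin k → M) : ov Finset.univ a t = a := by
  funext i; simp [ov]

omit [DecidableEq M] [Fintype M] in
lemma ov_empty (a t : Fin k → M) : ov ∅ a t = t := by
  funext i; simp [ov]

/-- No shape of `R` has a middle size. -/
def NoShape (s : ℕ) (R : (Fin k → M) → Prop) : Prop :=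
  ∀ (J : Finset (Fin k)) (π : Equiv.Perm M) (a1 a2 : Fin k → M),
    NoMid s (xr (sec J a1 R) (sec J a2 (pull π R)))

lemma supLe_sec (k j : ℕ) : ∃ c : ℕ, ∀ s : ℕ, 1 ≤ s → ∀ (M : Type) [Fintype M] [DecidableEq M]
    (R : (Fin k → M) → Prop), NoShape s R → ∀ (J : Finset (Fin k)), J.card + j = k →
      ∀ a : Fin k → M, SupLe (c * s ^ 2) (sec J a R) := by
  induction j with
  | zero =>
    refine ⟨0, ?_⟩
    intro s _ M _ _ R _ J hJ a
    have hJu : J = Finset.univ := by
      rw [← Finset.card_eq_iff_eq_univ, Fintype.card_fin]; omega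
    refine ⟨∅, by simp, ?_⟩
    intro σ _ t
    subst hJu
    simp only [sec, ov_univ]
  | succ j ih =>
    obtain ⟨c, hc⟩ := ih
    refine ⟨40 + k + 2 * (k * c), ?_⟩
    intro s hs M _ _ R hR J hJ a
    have hsec : ∀ i, i ∉ J → ∀ b, SupLe (c * s ^ 2) (sec (insert i J) b R) := by
      intro i hi b
      apply hc s hs M R hR
      rw [Finset.card_insert_of_notMem hi]; omega
    have hsw := supLe_swap J a R (c * s ^ 2) hsec
    have hmid : ∀ π, NoMid s (xr (sec J a R) (pull π (sec J a R))) := by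
      intro π
      rw [pull_sec]
      exact hR J π a _
    have hs2 : s ≤ s ^ 2 := by nlinarith
    have h1s : 1 ≤ s ^ 2 := by nlinarith
    have hk : k ≤ k * s ^ 2 := Nat.le_mul_of_pos_right k (by omega)
    have e : (40 + k + 2 * (k * c)) * s ^ 2 = 40 * s ^ 2 + k * s ^ 2 + 2 * (k * (c * s ^ 2)) := by
      ring
    by_cases hn : s + (2 * (k * (c * s ^ 2)) + 2) < Fintype.card M ∧ 3 * s < Fintype.card M ∧
        (s + 1) * (s + 2) + s + k + 2 < Fintype.card M
    · have hall := supLe_all hmid hsw hn.1 hn.2.1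
      obtain ⟨C, hC, hCs⟩ := supLe_final hall hn.2.2
      refine ⟨C, hC.trans ?_, hCs⟩
      rw [e]
      nlinarith
    · refine ⟨Finset.univ, ?_, ?_⟩
      · rw [Finset.card_univ, e]
        have e3 : (s + 1) * (s + 2) = s ^ 2 + 3 * s + 2 := by ring
        by_contra hcon
        apply hn
        refine ⟨?_, ?_, ?_⟩
        · omega
        · omega
        · rw [e3]; omega
      · intro σ hσ t
        have : (⇑σ ∘ t) = t := by
          funext i; exact hσ _ (Finset.mem_univ _)
        rw [this]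

theorem core (k : ℕ) : ∃ c : ℕ, ∀ s : ℕ, 1 ≤ s → ∀ (M : Type) [Fintype M]
    [DecidableEq M] (R : (Fin k → M) → Prop),
    (∃ C : Finset M, C.card ≤ c * s ^ 2 ∧ Sup R C) ∨
    ∃ (J : Finset (Fin k)) (π : Equiv.Perm M) (a1 a2 : Fin k → M) (p : M) (X : Finset M),
      (∀ x, x ∈ X ↔ XJ J R (fun t => R (π ∘ t)) a1 a2 p x) ∧ s < X.card ∧
      X.card + s < Fintype.card M := by
  obtain ⟨c, hc⟩ := supLe_sec k k
  refine ⟨c, ?_⟩
  intro s hs M _ _ R
  by_cases hR : NoShape s R
  · left
    rcases isEmpty_or_nonempty M with hM | hM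
    · refine ⟨∅, by simp, ?_⟩
      intro σ _ t
      have : (⇑σ ∘ t) = t := by
        funext i; exact (hM.false (t i)).elim
      rw [this]
    · obtain ⟨C, h1, h2⟩ := hc s hs M R hR ∅ (by simp) (fun _ => hM.some)
      refine ⟨C, h1, ?_⟩
      intro σ hσ t
      have := h2 σ hσ t
      simpa only [sec, ov_empty] using this
  · right
    unfold NoShape NoMid at hR
    push Not at hR
    obtain ⟨J, π, a1, a2, p, h1, h2⟩ := hR
    refine ⟨J, π, a1, a2, p, cls (xr (sec J a1 R) (sec J a2 (pull π R))) p, ?_, h1, h2⟩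
    intro x
    rw [mem_cls, ← XJ_iff]
    rfl

end Pool.Agent.Helper6.QG
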