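import Mathlib

/-!
Supports of relations on a finite set, and the shapes of the quantifier gap.
-/

namespace Pool.Agent.Helper6.QG

variable {M : Type*} {k : ℕ}

/-- Every permutation that fixes `C` pointwise preserves `Q`. -/
def Sup (Q : (Fin k → M) → Prop) (C : Finset M) : Prop :=
  ∀ σ : Equiv.Perm M, (∀ x ∈ C, σ x = x) → ∀ t, Q (σ ∘ t) ↔ Q t

/-- `t` overwritten by `a` at the places in `J`. -/
def ov (J : Finset (Fin k)) (a t : Fin k → M) : Fin k → M := fun i => if i ∈ J then a i else t i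

/-- `x` and `p` are twins in the difference of the sections of `R1` and `R2`. -/
def XJ [DecidableEq M] (J : Finset (Fin k)) (R1 R2 : (Fin k → M) → Prop) (a1 a2 : Fin k → M)
    (p x : M) : Prop :=
  ∀ t : Fin k → M,
    ((R1 (ov J a1 (Equiv.swap x p ∘ t)) ↔ R2 (ov J a2 (Equiv.swap x p ∘ t))) ↔
      (R1 (ov J a1 t) ↔ R2 (ov J a2 t)))

end Pool.Agent.Helper6.QG
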