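import Pool.Agent.Helper6.QG.Trans

/-!
If all differences `Q xor Q^π` have supports of at most `s` points, `Q` has a support of
`O(s²)` points.
-/

namespace Pool.Agent.Helper6.QG

/-- A digraph with out-degrees at most `d` has a large independent set. -/
lemma exists_indep (E : ℕ → ℕ → Prop) (d : ℕ) (r : ℕ) :
    ∀ S : Finset ℕ, (∀ i ∈ S, ∀ T ⊆ S, (∀ j ∈ T, E i j) → T.card ≤ d) →
      (2 * d + 1) * r ≤ S.card →
      ∃ I ⊆ S, I.card = r ∧ ∀ i ∈ I, ∀ j ∈ I, i ≠ j → ¬ E i j := by
  classical
  induction r with
  | zero => intro S _ _; exact ⟨∅, by simp, rfl, by simp⟩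
  | succ r ih =>
    intro S hS hc
    have hpos : 0 < S.card := by
      have : 0 < (2 * d + 1) * (r + 1) := by positivity
      omega
    -- a vertex of small in-degree
    obtain ⟨j, hj, hin⟩ : ∃ j ∈ S, (S.filter (fun i => E i j)).card ≤ d := by
      by_contra hcon
      push Not at hcon
      have h1 := Finset.sum_card_bipartiteAbove_eq_sum_card_bipartiteBelow (s := S) (t := S) E
      have h2 : ∑ a ∈ S, (Finset.bipartiteAbove E S a).card ≤ S.card * d := by
        refine (Finset.sum_le_card_nsmul _ _ d ?_).trans (by simp)
        intro a ha
        exact hS a ha _ (Finset.filter_subset _ _) (fun b hb => (Finset.mem_filter.1 hb).2)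
      have h3 : S.card * (d + 1) ≤ ∑ b ∈ S, (Finset.bipartiteBelow E S b).card := by
        have := Finset.card_nsmul_le_sum S (fun b => (Finset.bipartiteBelow E S b).card) (d + 1)
          (fun b hb => hcon b hb)
        simpa using this
      have h4 : S.card * (d + 1) = S.card * d + S.card := by ring
      omega
    set N : Finset ℕ := {j} ∪ (S.filter (fun i => E i j) ∪ S.filter (fun i => E j i)) with hN
    have hNc : N.card ≤ 2 * d + 1 := by
      have h1 := Finset.card_union_le {j} (S.filter (fun i => E i j) ∪ S.filter (fun i => E j i))
      have h2 := Finset.card_union_le (S.filter (fun i => E i j)) (S.filter (fun i => E j i))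
      have h3 := hS j hj (S.filter (fun i => E j i)) (Finset.filter_subset _ _)
        (fun b hb => (Finset.mem_filter.1 hb).2)
      rw [← hN] at h1
      simp only [Finset.card_singleton] at h1
      omega
    have hcard : (2 * d + 1) * r ≤ (S \ N).card := by
      have := Finset.le_card_sdiff N S
      have e : (2 * d + 1) * (r + 1) = (2 * d + 1) * r + (2 * d + 1) := by ring
      omega
    obtain ⟨I, hI, hIc, hind⟩ := ih (S \ N) (fun i hi T hT hE => hS i (Finset.mem_sdiff.1 hi).1 T
      (hT.trans Finset.sdiff_subset) hE) hcard
    have hjI : j ∉ I := by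
      intro h
      have := Finset.mem_sdiff.1 (hI h)
      exact this.2 (by simp [hN])
    refine ⟨insert j I, ?_, ?_, ?_⟩
    · intro x hx
      rw [Finset.mem_insert] at hx
      rcases hx with rfl | hx
      · exact hj
      · exact (Finset.mem_sdiff.1 (hI hx)).1
    · rw [Finset.card_insert_of_notMem hjI, hIc]
    · intro x hx y hy hxy
      rw [Finset.mem_insert] at hx hy
      rcases hx with rfl | hx
      · rcases hy with rfl | hy
        · exact absurd rfl hxy
        · intro hE
          have := Finset.mem_sdiff.1 (hI hy)
          apply this.2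
          rw [hN]
          simp [this.1, hE]
      · rcases hy with rfl | hy
        · intro hE
          have := Finset.mem_sdiff.1 (hI hx)
          apply this.2
          rw [hN]
          simp [this.1, hE]
        · exact hind x hx y hy hxy

variable {M : Type*} [DecidableEq M] [Fintype M] {k : ℕ}

/-- Many disjoint pairs of non-twins. -/
lemma exists_pairs (Q : (Fin k → M) → Prop) (m : ℕ) (h : ¬ SupLe (2 * m) Q) :
    ∃ a b : ℕ → M, (∀ i < m, ¬ Twin Q (a i) (b i)) ∧
      ∀ i < m, ∀ j < m, i ≠ j → a i ≠ a j ∧ a i ≠ b j ∧ b i ≠ b j := by
  classical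
  have hne : Nonempty M := by
    by_contra hc
    rw [not_nonempty_iff] at hc
    exact h ⟨∅, by simp, fun σ _ t => by
      have : (⇑σ ∘ t) = t := by funext i; exact (hc.false (t i)).elim
      rw [this]⟩
  have main : ∀ r ≤ m, ∃ a b : ℕ → M, (∀ i < r, ¬ Twin Q (a i) (b i)) ∧
      ∀ i < r, ∀ j < r, i ≠ j → a i ≠ a j ∧ a i ≠ b j ∧ b i ≠ b j := by
    intro r
    induction r with
    | zero =>
      intro _
      exact ⟨fun _ => hne.some, fun _ => hne.some, by simp, by simp⟩
    | succ r ih =>
      intro hr
      obtain ⟨a, b, h1, h2⟩ := ih (by omega)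
      set C : Finset M := (Finset.range r).image a ∪ (Finset.range r).image b with hC
      have hCc : C.card ≤ 2 * m := by
        have e1 := Finset.card_union_le ((Finset.range r).image a) ((Finset.range r).image b)
        have e2 : ((Finset.range r).image a).card ≤ r := by
          simpa using Finset.card_image_le (s := Finset.range r) (f := a)
        have e3 : ((Finset.range r).image b).card ≤ r := by
          simpa using Finset.card_image_le (s := Finset.range r) (f := b)
        rw [← hC] at e1
        omega
      have hns : ¬ Sup Q C := fun hs => h ⟨C, hCc, hs⟩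
      obtain ⟨u, v, hu, hv, huv⟩ : ∃ u v, u ∉ C ∧ v ∉ C ∧ ¬ Twin Q u v := by
        by_contra hcon
        push Not at hcon
        exact hns (sup_of_twin hcon)
      have haC : ∀ i < r, a i ∈ C := fun i hi => by
        rw [hC]
        exact Finset.mem_union_left _ (Finset.mem_image_of_mem _ (Finset.mem_range.2 hi))
      have hbC : ∀ i < r, b i ∈ C := fun i hi => by
        rw [hC]
        exact Finset.mem_union_right _ (Finset.mem_image_of_mem _ (Finset.mem_range.2 hi))
      refine ⟨fun i => if i = r then u else a i, fun i => if i = r then v else b i, ?_, ?_⟩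
      · intro i hi
        by_cases hir : i = r
        · simp [hir, huv]
        · simp [hir, h1 i (by omega)]
      · intro i hi j hj hij
        by_cases hir : i = r
        · have hjr : j ≠ r := fun h => hij (hir.trans h.symm)
          have hj' : j < r := by omega
          simp only [hir, hjr, if_true, if_false]
          refine ⟨?_, ?_, ?_⟩
          · rintro rfl; exact hu (haC j hj')
          · rintro rfl; exact hu (hbC j hj')
          · rintro rfl; exact hv (hbC j hj')
        · have hi' : i < r := by omega
          by_cases hjr : j = r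
          · simp only [hir, hjr, if_true, if_false]
            refine ⟨?_, ?_, ?_⟩
            · intro e; exact hu (e ▸ haC i hi')
            · intro e; exact hv (e ▸ haC i hi')
            · intro e; exact hv (e ▸ hbC i hi')
          · simp only [hir, hjr, if_false]
            exact h2 i hi' j (by omega) hij
  exact main m le_rfl

omit [Fintype M] in
/-- Entries of a tuple satisfying `D` can be moved to fresh points outside a support. -/
lemma exists_fresh {D : (Fin k → M) → Prop} {W F : Finset M} (hD : Sup D W) (hF : k < F.card)
    (hWF : Disjoint W F) (x : Fin k → M) (hx : D x) :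
    ∃ y, D y ∧ (∀ i, y i ∈ W ∨ y i ∈ F) ∧ ∀ i, x i ∈ W → y i = x i := by
  classical
  induction hm : ((Finset.univ.image x) \ (W ∪ F)).card using Nat.strong_induction_on
    generalizing x with
  | _ m ih =>
    by_cases hall : ∀ i, x i ∈ W ∨ x i ∈ F
    · exact ⟨x, hx, hall, fun _ _ => rfl⟩
    push Not at hall
    obtain ⟨i, hiW, hiF⟩ := hall
    obtain ⟨f, hf, hfx⟩ : ∃ f ∈ F, f ∉ Finset.univ.image x := by
      by_contra hcon
      push Not at hcon
      have h1 := Finset.card_le_card (show F ⊆ Finset.univ.image x from hcon)
      have h2 : (Finset.univ.image x).card ≤ k := by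
        simpa using Finset.card_image_le (s := (Finset.univ : Finset (Fin k))) (f := x)
      omega
    have hfW : f ∉ W := fun h => Finset.disjoint_left.1 hWF h hf
    have hfx' : ∀ j, x j ≠ f := fun j h => hfx (by
      rw [Finset.mem_image]; exact ⟨j, Finset.mem_univ _, h⟩)
    set x' : Fin k → M := Equiv.swap (x i) f ∘ x with hx'
    have hDx' : D x' := by
      rw [hx', hD]
      · exact hx
      · intro c hc
        apply Equiv.swap_apply_of_ne_of_ne
        · rintro rfl; exact hiW hc
        · rintro rfl; exact hfW hc
    have hval : ∀ j, x' j = if x j = x i then f else x j := by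
      intro j
      rw [hx']
      simp only [Function.comp]
      split_ifs with h
      · rw [h]; simp
      · exact Equiv.swap_apply_of_ne_of_ne h (hfx' j)
    have hlt : ((Finset.univ.image x') \ (W ∪ F)).card < m := by
      rw [← hm]
      apply Finset.card_lt_card
      rw [Finset.ssubset_iff_of_subset]
      · refine ⟨x i, ?_, ?_⟩
        · rw [Finset.mem_sdiff, Finset.mem_union]
          refine ⟨Finset.mem_image_of_mem _ (Finset.mem_univ _), ?_⟩
          tauto
        · intro hmem
          rw [Finset.mem_sdiff, Finset.mem_image] at hmem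
          obtain ⟨⟨j, _, hj⟩, _⟩ := hmem
          rw [hval j] at hj
          split_ifs at hj with h
          · exact hfx' i hj.symm
          · exact h hj
      · intro y hy
        rw [Finset.mem_sdiff, Finset.mem_image] at hy
        obtain ⟨⟨j, _, hj⟩, hy2⟩ := hy
        rw [hval j] at hj
        split_ifs at hj with h
        · exfalso
          apply hy2
          rw [← hj]
          exact Finset.mem_union_right _ hf
        · rw [Finset.mem_sdiff]
          exact ⟨hj ▸ Finset.mem_image_of_mem _ (Finset.mem_univ _), hy2⟩
    obtain ⟨y, h1, h2, h3⟩ := ih _ hlt x' hDx' rfl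
    refine ⟨y, h1, h2, ?_⟩
    intro j hj
    have hne : x j ≠ x i := fun h => hiW (h ▸ hj)
    have e : x' j = x j := by rw [hval j, if_neg hne]
    have := h3 j (by rw [e]; exact hj)
    rw [this, e]

end Pool.Agent.Helper6.QG
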