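import Pool.Agent.Helper6.QG.Final

/-!
Third step: all differences small implies a support of `O(s²)` points.
-/

namespace Pool.Agent.Helper6.QG

variable {M : Type*} [DecidableEq M] {k : ℕ}

/-- The product of disjoint transpositions. -/
lemma exists_prod (a b : ℕ → M) (I : Finset ℕ)
    (h : ∀ i ∈ I, ∀ j ∈ I, i ≠ j → a i ≠ a j ∧ a i ≠ b j ∧ b i ≠ b j) :
    ∃ π : Equiv.Perm M, (∀ x, (∀ i ∈ I, x ≠ a i ∧ x ≠ b i) → π x = x) ∧
      ∀ i ∈ I, π (a i) = b i ∧ π (b i) = a i := by
  classical
  induction I using Finset.induction_on with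
  | empty => exact ⟨1, by simp, by simp⟩
  | insert i I hi ih =>
    obtain ⟨π, h1, h2⟩ := ih (fun j hj l hl => h j (Finset.mem_insert_of_mem hj) l
      (Finset.mem_insert_of_mem hl))
    have hij : ∀ j ∈ I, a i ≠ a j ∧ a i ≠ b j ∧ b i ≠ b j ∧ b i ≠ a j := by
      intro j hj
      have hne : i ≠ j := fun e => hi (e ▸ hj)
      have e1 := h i (Finset.mem_insert_self _ _) j (Finset.mem_insert_of_mem hj) hne
      have e2 := h j (Finset.mem_insert_of_mem hj) i (Finset.mem_insert_self _ _) hne.symm
      exact ⟨e1.1, e1.2.1, e1.2.2, fun e => e2.2.1 e.symm⟩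
    refine ⟨Equiv.swap (a i) (b i) * π, ?_, ?_⟩
    · intro x hx
      rw [Equiv.Perm.mul_apply, h1 x (fun j hj => hx j (Finset.mem_insert_of_mem hj))]
      exact Equiv.swap_apply_of_ne_of_ne (hx i (Finset.mem_insert_self _ _)).1
        (hx i (Finset.mem_insert_self _ _)).2
    · intro j hj
      rw [Finset.mem_insert] at hj
      rcases hj with rfl | hj
      · constructor
        · rw [Equiv.Perm.mul_apply, h1 _ (fun l hl => ⟨(hij l hl).1, (hij l hl).2.1⟩)]
          simp
        · rw [Equiv.Perm.mul_apply, h1 _ (fun l hl => ⟨(hij l hl).2.2.2, (hij l hl).2.2.1⟩)]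
          simp
      · have e := hij j hj
        constructor
        · rw [Equiv.Perm.mul_apply, (h2 j hj).1]
          exact Equiv.swap_apply_of_ne_of_ne e.2.1.symm e.2.2.1.symm
        · rw [Equiv.Perm.mul_apply, (h2 j hj).2]
          exact Equiv.swap_apply_of_ne_of_ne e.1.symm e.2.2.2.symm

/-- Disjoint pairs cannot all meet a small set. -/
lemma card_le_of_meet (a b : ℕ → M) (I : Finset ℕ)
    (h : ∀ i ∈ I, ∀ j ∈ I, i ≠ j → a i ≠ a j ∧ a i ≠ b j ∧ b i ≠ b j) (C : Finset M)
    (hC : ∀ i ∈ I, a i ∈ C ∨ b i ∈ C) : I.card ≤ C.card := by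
  classical
  apply Finset.card_le_card_of_injOn (fun i => if a i ∈ C then a i else b i)
  · intro i hi
    simp only
    split_ifs with h1
    · exact h1
    · exact (hC i hi).resolve_left h1
  · intro i hi j hj hij
    by_contra hne
    have e1 := h i hi j hj hne
    have e2 := h j hj i hi (Ne.symm hne)
    simp only at hij
    split_ifs at hij with h1 h2 h2
    · exact e1.1 hij
    · exact e1.2.1 hij
    · exact e2.2.1 hij.symm
    · exact e1.2.2 hij

variable [Fintype M]

lemma supLe_final {Q : (Fin k → M) → Prop} {s : ℕ}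
    (hall : ∀ π, SupLe s (xr Q (pull π Q)))
    (hn : (s + 1) * (s + 2) + s + k + 2 < Fintype.card M) :
    SupLe (2 * ((2 * (s + 2) + 1) * (s + 1))) Q := by
  classical
  by_contra hcon
  obtain ⟨a, b, htw, hdis⟩ := exists_pairs Q _ hcon
  choose W0 hW0c hW0 using fun i => hall (Equiv.swap (a i) (b i))
  set W : ℕ → Finset M := fun i => W0 i ∪ {a i, b i} with hW
  have hWc : ∀ i, (W i).card ≤ s + 2 := by
    intro i
    have h1 := Finset.card_union_le (W0 i) {a i, b i}
    have h2 : ({a i, b i} : Finset M).card ≤ 2 := Finset.card_le_two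
    have h3 := hW0c i
    show (W0 i ∪ {a i, b i}).card ≤ s + 2
    omega
  have hWs : ∀ i, Sup (xr Q (pull (Equiv.swap (a i) (b i)) Q)) (W i) :=
    fun i => sup_mono (hW0 i) Finset.subset_union_left
  have haW : ∀ i, a i ∈ W i := fun i => by simp [hW]
  have hbW : ∀ i, b i ∈ W i := fun i => by simp [hW]
  obtain ⟨I, hIS, hIc, hind⟩ := exists_indep (fun i j => a j ∈ W i ∨ b j ∈ W i) (s + 2) (s + 1)
    (Finset.range ((2 * (s + 2) + 1) * (s + 1))) (by
      intro i _ T hT hE
      refine (card_le_of_meet a b T ?_ (W i) hE).trans (hWc i)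
      intro j hj l hl hjl
      exact hdis j (Finset.mem_range.1 (hT hj)) l (Finset.mem_range.1 (hT hl)) hjl)
    (by simp)
  have hdisI : ∀ i ∈ I, ∀ j ∈ I, i ≠ j → a i ≠ a j ∧ a i ≠ b j ∧ b i ≠ b j :=
    fun i hi j hj => hdis i (Finset.mem_range.1 (hIS hi)) j (Finset.mem_range.1 (hIS hj))
  obtain ⟨π, hπ1, hπ2⟩ := exists_prod a b I hdisI
  obtain ⟨C, hCc, hC⟩ := hall π
  obtain ⟨i, hi, haC, hbC⟩ : ∃ i ∈ I, a i ∉ C ∧ b i ∉ C := by
    by_contra hno
    push Not at hno
    have := card_le_of_meet a b I hdisI C (fun i hi => by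
      by_cases h : a i ∈ C
      · exact Or.inl h
      · exact Or.inr (hno i hi h))
    omega
  have hab : a i ≠ b i := by
    intro h
    apply htw i (Finset.mem_range.1 (hIS hi))
    rw [h]
    exact twin_refl Q _
  -- fresh points
  set F : Finset M := (C ∪ I.biUnion W)ᶜ with hF
  have hFc : k + 2 < F.card := by
    rw [hF, Finset.card_compl]
    have h1 := Finset.card_union_le C (I.biUnion W)
    have h2 : (I.biUnion W).card ≤ (s + 1) * (s + 2) := by
      refine Finset.card_biUnion_le.trans ?_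
      refine (Finset.sum_le_card_nsmul _ _ (s + 2) (fun j _ => hWc j)).trans ?_
      rw [hIc]; simp
    omega
  have hFC : ∀ x ∈ F, x ∉ C := by
    intro x hx hxC
    rw [hF, Finset.mem_compl] at hx
    exact hx (Finset.mem_union_left _ hxC)
  have hFW : ∀ x ∈ F, ∀ j ∈ I, x ∉ W j := by
    intro x hx j hj hxW
    rw [hF, Finset.mem_compl] at hx
    exact hx (Finset.mem_union_right _ (Finset.mem_biUnion.2 ⟨j, hj, hxW⟩))
  have hπF : ∀ x ∈ F, π x = x := by
    intro x hx
    apply hπ1
    intro j hj
    constructor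
    · rintro rfl; exact hFW _ hx j hj (haW j)
    · rintro rfl; exact hFW _ hx j hj (hbW j)
  have hπW : ∀ x ∈ W i, x ≠ a i → x ≠ b i → π x = x := by
    intro x hx h1 h2
    apply hπ1
    intro j hj
    by_cases hji : j = i
    · subst hji; exact ⟨h1, h2⟩
    · have := hind i hi j hj (Ne.symm hji)
      constructor
      · rintro rfl; exact this (Or.inl hx)
      · rintro rfl; exact this (Or.inr hx)
  -- a tuple where `τ_i` changes `Q`
  obtain ⟨x, hx⟩ : ∃ x, xr Q (pull (Equiv.swap (a i) (b i)) Q) x := by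
    have := htw i (Finset.mem_range.1 (hIS hi))
    unfold Twin at this
    push Not at this
    obtain ⟨x, hx⟩ := this
    refine ⟨x, ?_⟩
    simp only [xr, pull]
    tauto
  obtain ⟨y, hy, hyWF, -⟩ := exists_fresh (hWs i) (F := F) (by omega)
    (Finset.disjoint_left.2 fun z hz hzF => hFW z hzF i hi hz) x hx
  have hπy : (⇑π ∘ y) = Equiv.swap (a i) (b i) ∘ y := by
    funext j
    simp only [Function.comp]
    by_cases h1 : y j = a i
    · rw [h1, (hπ2 i hi).1]; simp
    · by_cases h2 : y j = b i
      · rw [h2, (hπ2 i hi).2]; simp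
      · rw [Equiv.swap_apply_of_ne_of_ne h1 h2]
        rcases hyWF j with h | h
        · exact hπW _ h h1 h2
        · exact hπF _ h
  have hDy : xr Q (pull π Q) y := by
    simp only [xr, pull, hπy]
    exact hy
  -- two more fresh points
  have hyc : (Finset.univ.image y).card ≤ k := by
    simpa using Finset.card_image_le (s := (Finset.univ : Finset (Fin k))) (f := y)
  obtain ⟨p, hp, hpy⟩ : ∃ p ∈ F, p ∉ Finset.univ.image y := by
    by_contra hno
    push Not at hno
    have := Finset.card_le_card (show F ⊆ Finset.univ.image y from hno)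
    omega
  obtain ⟨p', hp', hpy'⟩ : ∃ p' ∈ F, p' ∉ insert p (Finset.univ.image y) := by
    by_contra hno
    push Not at hno
    have h1 := Finset.card_le_card (show F ⊆ insert p (Finset.univ.image y) from hno)
    have h2 := Finset.card_insert_le p (Finset.univ.image y)
    omega
  rw [Finset.mem_insert, not_or] at hpy'
  have hpa : p ≠ a i := fun h => hFW p hp i hi (h ▸ haW i)
  have hpb : p ≠ b i := fun h => hFW p hp i hi (h ▸ hbW i)
  have hpa' : p' ≠ a i := fun h => hFW p' hp' i hi (h ▸ haW i)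
  have hpb' : p' ≠ b i := fun h => hFW p' hp' i hi (h ▸ hbW i)
  have hyp : ∀ j, y j ≠ p := fun j h => hpy (h ▸ Finset.mem_image_of_mem _ (Finset.mem_univ _))
  have hyp' : ∀ j, y j ≠ p' := fun j h =>
    hpy'.2 (h ▸ Finset.mem_image_of_mem _ (Finset.mem_univ _))
  set z : Fin k → M := Equiv.swap (b i) p' ∘ (Equiv.swap (a i) p ∘ y) with hz
  have hDz : xr Q (pull π Q) z := by
    rw [hz, hC, hC]
    · exact hDy
    · intro c hc
      apply Equiv.swap_apply_of_ne_of_ne
      · rintro rfl; exact haC hc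
      · rintro rfl; exact hFC _ hp hc
    · intro c hc
      apply Equiv.swap_apply_of_ne_of_ne
      · rintro rfl; exact hbC hc
      · rintro rfl; exact hFC _ hp' hc
  have hπz : (⇑π ∘ z) = z := by
    funext j
    have hzj : z j = if y j = a i then p else if y j = b i then p' else y j := by
      rw [hz]
      simp only [Function.comp]
      split_ifs with h1 h2
      · rw [h1]
        simp only [Equiv.swap_apply_left]
        exact Equiv.swap_apply_of_ne_of_ne hpb (Ne.symm hpy'.1)
      · rw [h2, Equiv.swap_apply_of_ne_of_ne (Ne.symm hab) (Ne.symm hpb)]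
        simp
      · rw [Equiv.swap_apply_of_ne_of_ne h1 (hyp j), Equiv.swap_apply_of_ne_of_ne h2 (hyp' j)]
    simp only [Function.comp]
    rw [hzj]
    split_ifs with h1 h2
    · exact hπF p hp
    · exact hπF p' hp'
    · rcases hyWF j with h | h
      · exact hπW _ h h1 h2
      · exact hπF _ h
  simp only [xr, pull, hπz] at hDz
  simp at hDz

end Pool.Agent.Helper6.QG
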