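import Pool.Agent.Helper6.QG.Trans

/-!
If all differences `Q xor Q^π` have supports of at most `s` points, `Q` has a support of
`O(s)` points.
-/

namespace Pool.Agent.Helper6.QG

variable {M : Type*} [DecidableEq M] {k : ℕ}

/-- the same equality pattern over `V` -/
def Pat (V : Finset M) (x y : Fin k → M) : Prop :=
  (∀ i, ∀ v ∈ V, x i = v ↔ y i = v) ∧ ∀ i j, x i = x j ↔ y i = y j

/-- the free entries -/
def fre (V : Finset M) (x : Fin k → M) : Finset M := (Finset.univ.image x) \ V

lemma mem_fre {V : Finset M} {x : Fin k → M} {z : M} : z ∈ fre V x ↔ (∃ i, x i = z) ∧ z ∉ V := by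
  simp [fre]

lemma fre_card_le (V : Finset M) (x : Fin k → M) : (fre V x).card ≤ k := by
  have h1 : (fre V x).card ≤ (Finset.univ.image x).card := Finset.card_le_card Finset.sdiff_subset
  have h2 : (Finset.univ.image x).card ≤ k := by
    simpa using Finset.card_image_le (s := (Finset.univ : Finset (Fin k))) (f := x)
  omega

omit [DecidableEq M] in
lemma Pat.symm {V : Finset M} {x y : Fin k → M} (h : Pat V x y) : Pat V y x :=
  ⟨fun i v hv => (h.1 i v hv).symm, fun i j => (h.2 i j).symm⟩

omit [DecidableEq M] in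
lemma Pat.trans {V : Finset M} {x y z : Fin k → M} (h : Pat V x y) (h' : Pat V y z) : Pat V x z :=
  ⟨fun i v hv => (h.1 i v hv).trans (h'.1 i v hv), fun i j => (h.2 i j).trans (h'.2 i j)⟩

omit [DecidableEq M] in
lemma Pat.mono {V V' : Finset M} {x y : Fin k → M} (h : Pat V' x y) (hV : V ⊆ V') : Pat V x y :=
  ⟨fun i v hv => h.1 i v (hV hv), h.2⟩

omit [DecidableEq M] in
lemma Pat.mem {V : Finset M} {x y : Fin k → M} (h : Pat V x y) {i : Fin k} (hi : x i ∈ V) :
    y i = x i := (h.1 i _ hi).1 rfl

omit [DecidableEq M] in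
lemma Pat.mem_iff {V : Finset M} {x y : Fin k → M} (h : Pat V x y) (i : Fin k) :
    x i ∈ V ↔ y i ∈ V :=
  ⟨fun hi => by rw [h.mem hi]; exact hi, fun hi => by rw [h.symm.mem hi]; exact hi⟩

/-- Tuples with the same pattern have equally many free entries. -/
lemma Pat.card {V : Finset M} {x y : Fin k → M} (h : Pat V x y) :
    (fre V x).card = (fre V y).card := by
  have key : ∀ {x y : Fin k → M}, Pat V x y → (fre V x).card ≤ (fre V y).card := by
    intro x y h
    have hex : ∀ z ∈ fre V x, ∃ i, x i = z := fun z hz => (mem_fre.1 hz).1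
    classical
    refine Finset.card_le_card_of_injOn
      (fun z => if hz : z ∈ fre V x then y (hex z hz).choose else z) ?_ ?_
    · intro z hz
      have hz' : z ∈ fre V x := hz
      simp only [dif_pos hz']
      have hc := (hex z hz').choose_spec
      rw [Finset.mem_coe, mem_fre]
      refine ⟨⟨_, rfl⟩, ?_⟩
      rw [← h.mem_iff, hc]
      exact (mem_fre.1 hz').2
    · intro z hz z' hz' hzz
      have hz1 : z ∈ fre V x := hz
      have hz2 : z' ∈ fre V x := hz'
      simp only [dif_pos hz1, dif_pos hz2] at hzz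
      have h1 := (hex z hz1).choose_spec
      have h2 := (hex z' hz2).choose_spec
      rw [← h.2, h1, h2] at hzz
      exact hzz
  exact le_antisymm (key h) (key h.symm)

/-- A permutation that swaps two disjoint tuples with the same pattern. -/
lemma exists_swap {V : Finset M} {x y : Fin k → M} (h : Pat V x y)
    (hd : Disjoint (fre V x) (fre V y)) :
    ∃ ρ : Equiv.Perm M, (∀ i, ρ (x i) = y i) ∧ (∀ i, ρ (y i) = x i) ∧
      ∀ z, z ∉ fre V x → z ∉ fre V y → ρ z = z := by
  classical
  have hx : ∀ z, z ∈ fre V x → ∃ i, x i = z := fun z hz => (mem_fre.1 hz).1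
  have hy : ∀ z, z ∈ fre V y → ∃ i, y i = z := fun z hz => (mem_fre.1 hz).1
  let f : M → M := fun z => if hz : z ∈ fre V x then y (hx z hz).choose else
    if hz : z ∈ fre V y then x (hy z hz).choose else z
  have fx : ∀ i, x i ∉ V → f (x i) = y i := by
    intro i hi
    have hz : x i ∈ fre V x := mem_fre.2 ⟨⟨i, rfl⟩, hi⟩
    simp only [f, dif_pos hz]
    exact (h.2 _ _).1 (hx _ hz).choose_spec
  have fy : ∀ i, y i ∉ V → f (y i) = x i := by
    intro i hi
    have hz : y i ∈ fre V y := mem_fre.2 ⟨⟨i, rfl⟩, hi⟩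
    have hz' : y i ∉ fre V x := fun h' => Finset.disjoint_left.1 hd h' hz
    simp only [f, dif_neg hz', dif_pos hz]
    exact (h.2 _ _).2 (hy _ hz).choose_spec
  have fn : ∀ z, z ∉ fre V x → z ∉ fre V y → f z = z := by
    intro z h1 h2
    simp only [f, dif_neg h1, dif_neg h2]
  have hinv : Function.Involutive f := by
    intro z
    by_cases h1 : z ∈ fre V x
    · obtain ⟨⟨i, rfl⟩, hi⟩ := mem_fre.1 h1
      rw [fx i hi, fy i (fun h' => hi ((h.mem_iff i).2 h'))]
    · by_cases h2 : z ∈ fre V y
      · obtain ⟨⟨i, rfl⟩, hi⟩ := mem_fre.1 h2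
        rw [fy i hi, fx i (fun h' => hi ((h.mem_iff i).1 h'))]
      · rw [fn z h1 h2, fn z h1 h2]
  have fV : ∀ z ∈ V, f z = z := by
    intro z hz
    apply fn
    · intro h'; exact (mem_fre.1 h').2 hz
    · intro h'; exact (mem_fre.1 h').2 hz
  refine ⟨hinv.toPerm f, ?_, ?_, ?_⟩
  · intro i
    show f (x i) = y i
    by_cases hi : x i ∈ V
    · rw [fV _ hi, h.mem hi]
    · exact fx i hi
  · intro i
    show f (y i) = x i
    by_cases hi : y i ∈ V
    · rw [fV _ hi, h.symm.mem hi]
    · exact fy i hi
  · intro z h1 h2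
    exact fn z h1 h2

/-- A tuple with the same pattern and free entries in `F`. -/
lemma exists_copy {V F : Finset M} (hF : k ≤ F.card) (hFV : Disjoint F V) (x : Fin k → M) :
    ∃ w : Fin k → M, Pat V x w ∧ fre V w ⊆ F := by
  classical
  have hc : (fre V x).card ≤ F.card := (fre_card_le V x).trans hF
  obtain ⟨F', hF', hFc⟩ := Finset.exists_subset_card_eq hc
  obtain ⟨e⟩ : Nonempty (fre V x ≃ F') := ⟨Finset.equivOfCardEq hFc.symm⟩
  let w : Fin k → M := fun i => if hi : x i ∈ V then x i else
    (e ⟨x i, mem_fre.2 ⟨⟨i, rfl⟩, hi⟩⟩ : M)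
  have w1 : ∀ i, x i ∈ V → w i = x i := fun i hi => by simp only [w, dif_pos hi]
  have w2 : ∀ i (hi : x i ∉ V), w i = (e ⟨x i, mem_fre.2 ⟨⟨i, rfl⟩, hi⟩⟩ : M) :=
    fun i hi => by simp only [w, dif_neg hi]
  have w3 : ∀ i, x i ∉ V → w i ∈ F := fun i hi => by
    rw [w2 i hi]; exact hF' (e _).2
  have w4 : ∀ i, x i ∉ V → w i ∉ V := fun i hi h =>
    Finset.disjoint_left.1 hFV (w3 i hi) h
  refine ⟨w, ⟨?_, ?_⟩, ?_⟩
  · intro i v hv
    by_cases hi : x i ∈ V
    · rw [w1 i hi]
    · constructor
      · rintro rfl; exact absurd hv hi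
      · rintro rfl; exact absurd hv (w4 i hi)
  · intro i j
    by_cases hi : x i ∈ V
    · by_cases hj : x j ∈ V
      · rw [w1 i hi, w1 j hj]
      · rw [w1 i hi]
        constructor
        · intro h; exact absurd (h ▸ hi) hj
        · intro h; exact absurd (h ▸ hi) (w4 j hj)
    · by_cases hj : x j ∈ V
      · rw [w1 j hj]
        constructor
        · intro h; exact absurd (h ▸ hj) hi
        · intro h; exact absurd (h ▸ hj) (w4 i hi)
      · rw [w2 i hi, w2 j hj]
        constructor
        · intro h
          congr 2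
          exact Subtype.ext h
        · intro h
          have := e.injective (Subtype.ext h)
          exact congrArg Subtype.val this
  · intro z hz
    obtain ⟨⟨i, rfl⟩, hi⟩ := mem_fre.1 hz
    apply w3
    intro h
    exact hi (by rw [w1 i h]; exact h)

/-- A bad pair of tuples. -/
structure Bad (Q : (Fin k → M) → Prop) (V : Finset M) (l : ℕ) (x y : Fin k → M) : Prop where
  pat : Pat V x y
  card : (fre V x).card = l
  dis : Disjoint (fre V x) (fre V y)
  ne : ¬ (Q x ↔ Q y)

/-- `r` bad pairs with disjoint sets of free entries. -/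
def Many (Q : (Fin k → M) → Prop) (V : Finset M) (l r : ℕ) (X Y : ℕ → Fin k → M) : Prop :=
  (∀ j < r, Bad Q V l (X j) (Y j)) ∧
  ∀ i < r, ∀ j < r, i ≠ j → Disjoint (fre V (X i) ∪ fre V (Y i)) (fre V (X j) ∪ fre V (Y j))

/-- The product of the swaps. -/
lemma exists_swaps {Q : (Fin k → M) → Prop} {V : Finset M} {l : ℕ} (X Y : ℕ → Fin k → M)
    (r : ℕ) (h : Many Q V l r X Y) :
    ∃ π : Equiv.Perm M, (∀ j < r, ∀ i, π (X j i) = Y j i) ∧
      ∀ z, (∀ j < r, z ∉ fre V (X j) ∧ z ∉ fre V (Y j)) → π z = z := by
  induction r with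
  | zero => exact ⟨1, by simp, by simp⟩
  | succ r ih =>
    obtain ⟨π, h1, h2⟩ := ih ⟨fun j hj => h.1 j (by omega),
      fun i hi j hj => h.2 i (by omega) j (by omega)⟩
    obtain ⟨ρ, r1, r2, r3⟩ := exists_swap (h.1 r (by omega)).pat (h.1 r (by omega)).dis
    refine ⟨π * ρ, ?_, ?_⟩
    · intro j hj i
      rw [Equiv.Perm.mul_apply]
      by_cases hjr : j = r
      · subst hjr
        rw [r1]
        by_cases hV : Y j i ∈ V
        · apply h2
          intro j' hj'
          exact ⟨fun hh => (mem_fre.1 hh).2 hV, fun hh => (mem_fre.1 hh).2 hV⟩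
        · apply h2
          intro j' hj'
          have hd := h.2 j (by omega) j' (by omega) (by omega)
          have hm : Y j i ∈ fre V (X j) ∪ fre V (Y j) :=
            Finset.mem_union_right _ (mem_fre.2 ⟨⟨i, rfl⟩, hV⟩)
          have hn := Finset.disjoint_left.1 hd hm
          rw [Finset.mem_union, not_or] at hn
          exact hn
      · have hj' : j < r := by omega
        have e : ρ (X j i) = X j i := by
          by_cases hV : X j i ∈ V
          · exact r3 _ (fun hh => (mem_fre.1 hh).2 hV) (fun hh => (mem_fre.1 hh).2 hV)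
          · have hd := h.2 j (by omega) r (by omega) hjr
            have hm : X j i ∈ fre V (X j) ∪ fre V (Y j) :=
              Finset.mem_union_left _ (mem_fre.2 ⟨⟨i, rfl⟩, hV⟩)
            have hn := Finset.disjoint_left.1 hd hm
            rw [Finset.mem_union, not_or] at hn
            exact r3 _ hn.1 hn.2
        rw [e]
        exact h1 j hj' i
    · intro z hz
      rw [Equiv.Perm.mul_apply, r3 z (hz r (by omega)).1 (hz r (by omega)).2]
      exact h2 z (fun j hj => hz j (by omega))

/-- Entries of a tuple satisfying `D` can be moved to fresh points outside a support. -/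
lemma exists_fresh2 {D : (Fin k → M) → Prop} {W F : Finset M} (hD : Sup D W) (hF : k < F.card)
    (hWF : Disjoint W F) (x : Fin k → M) (hx : D x) :
    ∃ y, D y ∧ ∀ i, (x i ∈ W ∧ y i = x i) ∨ y i ∈ F := by
  classical
  induction hm : ((Finset.univ.image x) \ (W ∪ F)).card using Nat.strong_induction_on
    generalizing x with
  | _ m ih =>
    by_cases hall : ∀ i, x i ∈ W ∨ x i ∈ F
    · refine ⟨x, hx, fun i => ?_⟩
      rcases hall i with h | h
      · exact Or.inl ⟨h, rfl⟩
      · exact Or.inr h
    push Not at hall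
    obtain ⟨i, hiW, hiF⟩ := hall
    obtain ⟨f, hf, hfx⟩ : ∃ f ∈ F, f ∉ Finset.univ.image x := by
      by_contra hcon
      push Not at hcon
      have h1 := Finset.card_le_card (show F ⊆ Finset.univ.image x from hcon)
      have h2 : (Finset.univ.image x).card ≤ k := by
        simpa using Finset.card_image_le (s := (Finset.univ : Finset (Fin k))) (f := x)
      omega
    have hfW : f ∉ W := fun h => Finset.disjoint_left.1 hWF h hf
    have hfx' : ∀ j, x j ≠ f := fun j h => hfx (by
      rw [Finset.mem_image]; exact ⟨j, Finset.mem_univ _, h⟩)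
    set x' : Fin k → M := Equiv.swap (x i) f ∘ x with hx'
    have hDx' : D x' := by
      rw [hx', hD]
      · exact hx
      · intro c hc
        apply Equiv.swap_apply_of_ne_of_ne
        · rintro rfl; exact hiW hc
        · rintro rfl; exact hfW hc
    have hval : ∀ j, x' j = if x j = x i then f else x j := by
      intro j
      rw [hx']
      simp only [Function.comp]
      split_ifs with h
      · rw [h]; simp
      · exact Equiv.swap_apply_of_ne_of_ne h (hfx' j)
    have hlt : ((Finset.univ.image x') \ (W ∪ F)).card < m := by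
      rw [← hm]
      apply Finset.card_lt_card
      rw [Finset.ssubset_iff_of_subset]
      · refine ⟨x i, ?_, ?_⟩
        · rw [Finset.mem_sdiff, Finset.mem_union]
          refine ⟨Finset.mem_image_of_mem _ (Finset.mem_univ _), ?_⟩
          tauto
        · intro hmem
          rw [Finset.mem_sdiff, Finset.mem_image] at hmem
          obtain ⟨⟨j, _, hj⟩, _⟩ := hmem
          rw [hval j] at hj
          split_ifs at hj with h
          · exact hfx' i hj.symm
          · exact h hj
      · intro y hy
        rw [Finset.mem_sdiff, Finset.mem_image] at hy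
        obtain ⟨⟨j, _, hj⟩, hy2⟩ := hy
        rw [hval j] at hj
        split_ifs at hj with h
        · exfalso
          apply hy2
          rw [← hj]
          exact Finset.mem_union_right _ hf
        · rw [Finset.mem_sdiff]
          exact ⟨hj ▸ Finset.mem_image_of_mem _ (Finset.mem_univ _), hy2⟩
    obtain ⟨y, h1, h2⟩ := ih _ hlt x' hDx' rfl
    refine ⟨y, h1, fun j => ?_⟩
    rcases h2 j with ⟨h3, h4⟩ | h3
    · have h5 := hval j
      split_ifs at h5 with h6
      · rw [h5] at h3; exact absurd h3 hfW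
      · rw [h5] at h3 h4
        exact Or.inl ⟨h3, h4⟩
    · exact Or.inr h3

end Pool.Agent.Helper6.QG
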