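import Pool.Agent.Helper6.QG.Base

/-!
Sections with small supports make all differences `Q xor Q^π` small.
-/

namespace Pool.Agent.Helper6.QG

variable {M : Type*} [DecidableEq M] {k : ℕ}

/-- `R` with the places in `J` filled by `a`. -/
def sec (J : Finset (Fin k)) (a : Fin k → M) (R : (Fin k → M) → Prop) : (Fin k → M) → Prop :=
  fun x => R (ov J a x)

omit [DecidableEq M] in
lemma ov_comp (J : Finset (Fin k)) (a t : Fin k → M) (π : Equiv.Perm M) :
    π ∘ ov J a t = ov J (π ∘ a) (π ∘ t) := by
  funext i; simp only [ov, Function.comp]; split_ifs <;> rfl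

lemma pull_sec (J : Finset (Fin k)) (a : Fin k → M) (R : (Fin k → M) → Prop)
    (π : Equiv.Perm M) : pull π (sec J a R) = sec J (π.symm ∘ a) (pull π R) := by
  funext t
  simp only [pull, sec, ov_comp]
  congr 2
  funext i; simp

lemma XJ_iff (J : Finset (Fin k)) (R1 R2 : (Fin k → M) → Prop) (a1 a2 : Fin k → M) (p x : M) :
    XJ J R1 R2 a1 a2 p x ↔ Twin (xr (sec J a1 R1) (sec J a2 R2)) x p := by
  unfold XJ Twin xr sec
  apply forall_congr'
  intro t
  tauto

omit [DecidableEq M] in
lemma sec_update (J : Finset (Fin k)) (a : Fin k → M) (R : (Fin k → M) → Prop) {i : Fin k}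
    (hi : i ∉ J) {y : Fin k → M} {w : M} (hy : y i = w) :
    sec J a R y ↔ sec (insert i J) (Function.update a i w) R y := by
  unfold sec
  have : ov J a y = ov (insert i J) (Function.update a i w) y := by
    funext j
    simp only [ov, Finset.mem_insert]
    by_cases hj : j = i
    · subst hj; simp [hi, hy]
    · by_cases hJ : j ∈ J
      · simp [hJ, hj]
      · simp [hJ, hj]
  rw [this]

lemma supLe_swap (J : Finset (Fin k)) (a : Fin k → M) (R : (Fin k → M) → Prop) (c : ℕ)
    (h : ∀ i, i ∉ J → ∀ b, SupLe c (sec (insert i J) b R)) (u v : M) :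
    SupLe (2 * (k * c) + 2) (xr (sec J a R) (pull (Equiv.swap u v) (sec J a R))) := by
  classical
  have hs : ∀ (i : Fin k) (w : M), ∃ C : Finset M, C.card ≤ c ∧
      (i ∉ J → Sup (sec (insert i J) (Function.update a i w) R) C) := by
    intro i w
    by_cases hi : i ∈ J
    · exact ⟨∅, by simp, fun h => absurd hi h⟩
    · obtain ⟨C, h1, h2⟩ := h i hi (Function.update a i w)
      exact ⟨C, h1, fun _ => h2⟩
  choose C hC hCs using hs
  set D : Finset M := {u, v} ∪ Finset.univ.biUnion (fun i => C i u ∪ C i v) with hD
  have hu : u ∈ D := by simp [hD]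
  have hv : v ∈ D := by simp [hD]
  have hsub : ∀ (i : Fin k) (w : M), (w = u ∨ w = v) → C i w ⊆ D := by
    intro i w hw x hx
    rw [hD]
    apply Finset.mem_union_right
    rw [Finset.mem_biUnion]
    refine ⟨i, Finset.mem_univ _, ?_⟩
    rcases hw with rfl | rfl
    · exact Finset.mem_union_left _ hx
    · exact Finset.mem_union_right _ hx
  refine ⟨D, ?_, ?_⟩
  · have h1 : ({u, v} : Finset M).card ≤ 2 := Finset.card_le_two
    have h2 : (Finset.univ.biUnion (fun i => C i u ∪ C i v)).card ≤ k * (2 * c) := by
      refine Finset.card_biUnion_le.trans ?_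
      have : ∀ i ∈ (Finset.univ : Finset (Fin k)), (C i u ∪ C i v).card ≤ 2 * c := by
        intro i _
        have := Finset.card_union_le (C i u) (C i v)
        have := hC i u
        have := hC i v
        omega
      refine (Finset.sum_le_card_nsmul _ _ _ this).trans ?_
      simp
    have h3 := Finset.card_union_le {u, v} (Finset.univ.biUnion (fun i => C i u ∪ C i v))
    rw [← hD] at h3
    have : k * (2 * c) = 2 * (k * c) := by ring
    omega
  · intro ρ hρ x
    have hρu := hρ u hu
    have hρv := hρ v hv
    -- the value at tuples through `u` or `v` is preserved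
    have key : ∀ (y : Fin k → M) (i : Fin k), i ∉ J → (y i = u ∨ y i = v) →
        (sec J a R (ρ ∘ y) ↔ sec J a R y) := by
      intro y i hi hy
      have h1 : (ρ ∘ y) i = y i := by
        rcases hy with h | h
        · simp [h, hρu]
        · simp [h, hρv]
      rw [sec_update J a R hi (y := ρ ∘ y) h1, sec_update J a R hi (y := y) rfl]
      exact hCs i (y i) hi ρ (fun z hz => hρ z (hsub i _ hy hz)) y
    by_cases hx : ∃ i, i ∉ J ∧ (x i = u ∨ x i = v)
    · obtain ⟨i, hi, hxi⟩ := hx
      have h1 := key x i hi hxi
      have h2 := key (Equiv.swap u v ∘ x) i hi (by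
        rcases hxi with h | h
        · right; simp [h]
        · left; simp [h])
      have e : ρ ∘ (Equiv.swap u v ∘ x) = Equiv.swap u v ∘ (ρ ∘ x) := by
        funext j
        simp only [Function.comp]
        by_cases h3 : x j = u
        · simp [h3, hρu, hρv]
        · by_cases h4 : x j = v
          · simp [h4, hρu, hρv]
          · have h5 : ρ (x j) ≠ u := fun h => h3 (ρ.injective (h.trans hρu.symm))
            have h6 : ρ (x j) ≠ v := fun h => h4 (ρ.injective (h.trans hρv.symm))
            rw [Equiv.swap_apply_of_ne_of_ne h3 h4, Equiv.swap_apply_of_ne_of_ne h5 h6]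
      rw [e] at h2
      simp only [xr, pull, h1, h2]
    · push Not at hx
      have key2 : ∀ y : Fin k → M, (∀ i, i ∉ J → y i ≠ u ∧ y i ≠ v) →
          (sec J a R (Equiv.swap u v ∘ y) ↔ sec J a R y) := by
        intro y hy
        unfold sec
        have : ov J a (Equiv.swap u v ∘ y) = ov J a y := by
          funext i
          simp only [ov]
          split_ifs with hi
          · rfl
          · simp only [Function.comp]
            exact Equiv.swap_apply_of_ne_of_ne (hy i hi).1 (hy i hi).2
        rw [this]
      have h1 := key2 x hx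
      have h2 := key2 (ρ ∘ x) (by
        intro i hi
        have := hx i hi
        constructor
        · intro h
          exact this.1 (ρ.injective (h.trans hρu.symm))
        · intro h
          exact this.2 (ρ.injective (h.trans hρv.symm)))
      simp only [xr, pull, h1, h2]

variable [Fintype M]

lemma supLe_all {Q : (Fin k → M) → Prop} {s s1 : ℕ}
    (hmid : ∀ π, NoMid s (xr Q (pull π Q)))
    (hsw : ∀ u v, SupLe s1 (xr Q (pull (Equiv.swap u v) Q)))
    (h1 : s + s1 < Fintype.card M) (h2 : 3 * s < Fintype.card M) (π : Equiv.Perm M) :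
    SupLe s (xr Q (pull π Q)) := by
  induction π using Equiv.Perm.swap_induction_on with
  | one =>
    refine ⟨∅, by simp, ?_⟩
    intro σ _ x
    simp [xr, pull]
  | swap_mul f x y hxy ih =>
    have hs := supLe_of_noMid (hmid (Equiv.swap x y)) (hsw x y) h1
    have e : xr Q (pull (Equiv.swap x y * f) Q) =
        xr (xr Q (pull f Q)) (pull f (xr Q (pull (Equiv.swap x y) Q))) := by
      funext t
      have e2 : (⇑(Equiv.swap x y * f) ∘ t) = Equiv.swap x y ∘ (f ∘ t) := by
        funext i; simp
      simp only [xr, pull, e2]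
      apply propext
      tauto
    refine supLe_of_noMid (s' := s + s) (hmid _) ?_ (by omega)
    rw [e]
    exact supLe_xr ih (supLe_pull hs f)

end Pool.Agent.Helper6.QG
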